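import Pool.Agent.LRG.StmtsR

/-! LRG, block R, row SEL: assembly of the selection of robust sets. -/

noncomputable section

open Finset

namespace Pool.Agent.LRG.H82

open Pool.Agent.LRG.R

theorem sel : SelRowStatement := by
  intro hRbm hEta hSno hTrm hLop hCst N ε hε
  obtain ⟨θ, hθ, hθ2⟩ := hCst N ε hε
  refine ⟨θ, hθ, ?_⟩
  intro e C
  obtain ⟨E, L, B, hB, hE1, hL1, hstep, hfin⟩ := hθ2 e C
  refine ⟨B, hB, ?_⟩
  intro X hX PP hPP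
  have hL1' : ∀ m, 1 ≤ L m X := fun m => hL1 m X hX
  obtain ⟨m, c, S, hm1, hmN, hinj, hSP, hrob, hno⟩ :=
    hLop N E (fun m => L m X) hE1 hL1' PP (lt_of_le_of_lt (hfin X hX) hPP)
  obtain ⟨hEE, heE, hLL⟩ := hstep m hm1 hmN
  have hLL' := hLL X hX
  obtain ⟨T₁, hT1S, hT1card, hT1dep⟩ :=
    hTrm N m c (E (m + 1)) (L (m + 1) X) S (hE1 (m + 1)) (hL1' (m + 1)) hno
  have hXθ : (1 : ℝ) ≤ X ^ θ := Real.one_le_rpow hX hθ.le
  have hmax : (1 : ℝ) ≤ max 1 (C m (E (m + 1))) * X ^ θ := by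
    have h1 : (1 : ℝ) ≤ max 1 (C m (E (m + 1))) := le_max_left _ _
    nlinarith
  have hLpos : (0 : ℝ) ≤ L (m + 1) X ^ N := by
    have := hL1' (m + 1)
    positivity
  have h2pos : (0 : ℝ) ≤ 2 ^ ((E (m + 1) + 1) * N) := by positivity
  have hprod : (0 : ℝ) ≤ L (m + 1) X ^ N * 2 ^ ((E (m + 1) + 1) * N) := mul_nonneg hLpos h2pos
  have hrob1 : Rob c (E (m + 1)) ((2 : ℝ) ^ ((E (m + 1) + 1) * N)) T₁ := by
    refine hRbm.2 N m c (E m) (E (m + 1)) (L m X) (L (m + 1) X ^ N) _ S T₁ hrob hEE hLpos ?_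
      hT1S hT1card
    calc L (m + 1) X ^ N * 2 ^ ((E (m + 1) + 1) * N)
        = L (m + 1) X ^ N * 2 ^ ((E (m + 1) + 1) * N) * 1 := by ring
      _ ≤ L (m + 1) X ^ N * 2 ^ ((E (m + 1) + 1) * N) *
          (max 1 (C m (E (m + 1))) * X ^ θ) := mul_le_mul_of_nonneg_left hmax hprod
      _ ≤ L m X := hLL'
  obtain ⟨T, hTT1, hTcard, hTne, hTet⟩ :=
    hEta N m c (E (m + 1)) T₁ (fun l => hSno N m c (E (m + 1)) l T₁ (hT1dep l)) hrob1
  have hTS : T ⊆ S := hTT1.trans hT1S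
  refine ⟨m, E (m + 1), c, T, hm1, hmN, hE1 (m + 1), hinj, hTS.trans hSP, hTne, hTet, ?_⟩
  refine hRbm.2 N m c (E m) (e m (E (m + 1))) (L m X)
    (L (m + 1) X ^ N * 2 ^ ((E (m + 1) + 1) * N)) _ S T hrob heE hprod ?_ hTS ?_
  · refine le_trans (mul_le_mul_of_nonneg_left ?_ hprod) hLL'
    exact mul_le_mul_of_nonneg_right (le_max_right _ _) (by linarith)
  · calc (S.card : ℝ) ≤ L (m + 1) X ^ N * (T₁.card : ℝ) := hT1card
      _ ≤ L (m + 1) X ^ N * (2 ^ ((E (m + 1) + 1) * N) * (T.card : ℝ)) :=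
          mul_le_mul_of_nonneg_left hTcard hLpos
      _ = L (m + 1) X ^ N * 2 ^ ((E (m + 1) + 1) * N) * (T.card : ℝ) := by ring

end Pool.Agent.LRG.H82
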